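import Pool.Agent.W602.RG.Stm2

set_option autoImplicit false

open FF MvPolynomial Pool.Agent.W603.LV Pool.Agent.W603.PV Pool.Agent.W603.CX

namespace Pool.Agent.W274.RG

open Pool.Agent.W602.RG

theorem sub_homog {k : Type} [Field k] {n : ℕ} (F : MvPolynomial (Fin n) k) (d : ℕ)
    (hF : F.IsHomogeneous d) (A : Finset (Fin n →₀ ℕ)) (hA : A ⊆ F.support) :
    (Pool.Agent.W603.LV.sub F A).IsHomogeneous d := by
  unfold Pool.Agent.W603.LV.sub
  apply IsHomogeneous.sum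
  intro α hα
  apply isHomogeneous_monomial
  have h1 := hF (mem_support_iff.1 (hA hα))
  rw [← h1, Finsupp.degree_eq_weight_one]
  rfl

/-- one subset of the differences -/
theorem one_Q {k : Type} [Field k] [IsAlgClosed k] [CharZero k] {n : ℕ} {ι : Type}
    (U : Set (Fin (n + 1))) (F : ι → MvPolynomial (Fin (n + 1)) k)
    (hF : ∀ i, ∃ d, (F i).IsHomogeneous d) (hirr : Pool.Agent.W603.CX.Irred U F)
    (hno : ∀ b : Fin (n + 1) → ℤ, Pool.Agent.W603.CX.Preserves U F b →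
      Pool.Agent.W603.CX.ActsTrivially U F b) (Q : Finset (Fin (n + 1) → ℤ)) :
    ∃ G : MvPolynomial (Fin (n + 1)) k, (∃ d, G.IsHomogeneous d) ∧
      (∃ x ∈ Pool.Agent.W603.CX.Pts U F, eval x G ≠ 0) ∧
      ∀ x, eval x G ≠ 0 → ∀ b0 : Fin (n + 1) → ℤ, (∀ q ∈ Q, ∑ l, q l * b0 l = 0) →
        (∃ i j, (∃ y ∈ Pool.Agent.W603.CX.Pts U F, y i ≠ 0) ∧
          (∃ y ∈ Pool.Agent.W603.CX.Pts U F, y j ≠ 0) ∧ b0 i ≠ b0 j) →
        ∃ b : Fin (n + 1) → ℤ, (∀ q ∈ Q, ∑ l, q l * b l = 0) ∧ ∃ (i : ι) (v : ℤ),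
          ∑ α ∈ (F i).support.filter (fun α => ∑ j, (α j : ℤ) * b j = v),
            (F i).coeff α * ∏ j, x j ^ α j ≠ 0 := by
  classical
  by_cases h : ∃ b : Fin (n + 1) → ℤ, (∀ q ∈ Q, ∑ l, q l * b l = 0) ∧
      (∃ i j, (∃ y ∈ Pool.Agent.W603.CX.Pts U F, y i ≠ 0) ∧
          (∃ y ∈ Pool.Agent.W603.CX.Pts U F, y j ≠ 0) ∧ b i ≠ b j)
  · obtain ⟨b, hbQ, j, l, ⟨yj, hyj, hyj0⟩, ⟨yl, hyl, hyl0⟩, hbjl⟩ := h
    have hnp : ¬ Pool.Agent.W603.CX.Preserves U F b := by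
      intro hp
      have h1 := hno b hp
      obtain ⟨x, hx, hxp⟩ := irred_prod hirr (Finset.univ : Finset (Fin 2))
        ![X j, X l] (by
          intro m _
          fin_cases m
          · exact ⟨yj, hyj, by simpa using hyj0⟩
          · exact ⟨yl, hyl, by simpa using hyl0⟩)
      rw [map_prod, Fin.prod_univ_two] at hxp
      simp only [Matrix.cons_val_zero, Matrix.cons_val_one, eval_X] at hxp
      obtain ⟨c, hc⟩ := h1 x hx 2 two_ne_zero
      have h3 : ∀ m, x m ≠ 0 → (2 : k) ^ b m = c := by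
        intro m hm
        have h4 := congrFun hc m
        simp only [Pi.smul_apply, smul_eq_mul] at h4
        rw [mul_comm] at h4
        exact mul_right_cancel₀ hm h4
      have h4 := h3 j (left_ne_zero_of_mul hxp)
      have h5 := h3 l (right_ne_zero_of_mul hxp)
      have h6 : (2 : k) ^ (b j - b l) = 1 := by
        rw [zpow_sub₀ two_ne_zero, h4, h5]
        exact div_self (by rw [← h5]; exact zpow_ne_zero _ two_ne_zero)
      have := two_zpow_ne h6
      omega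
    unfold Pool.Agent.W603.CX.Preserves at hnp
    push Not at hnp
    obtain ⟨x, hx, t, ht, hxt⟩ := hnp
    have hi : ∃ i, eval (fun j => x j * t ^ b j) (F i) ≠ 0 := by
      by_contra hcon
      push Not at hcon
      apply hxt
      refine ⟨?_, fun j hj => mul_ne_zero (hx.2.1 j hj) (zpow_ne_zero _ ht), hcon⟩
      obtain ⟨l, hl⟩ := Function.ne_iff.mp hx.1
      exact Function.ne_iff.mpr ⟨l, mul_ne_zero hl (zpow_ne_zero _ ht)⟩
    obtain ⟨i, hi⟩ := hi
    have hv : ∃ v : ℤ, eval x (Pool.Agent.W603.LV.sub (F i)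
        ((F i).support.filter fun α => ∑ j, (α j : ℤ) * b j = v)) ≠ 0 := by
      by_contra hcon
      push Not at hcon
      exact hi (eval_laurent_zero (F i) x b t ht hcon)
    obtain ⟨v, hv⟩ := hv
    obtain ⟨d, hd⟩ := hF i
    refine ⟨_, ⟨d, sub_homog (F i) d hd _ (Finset.filter_subset _ _)⟩, ⟨x, hx, hv⟩, ?_⟩
    intro y hy b0 _ _
    refine ⟨b, hbQ, i, v, ?_⟩
    rw [eval_sub'] at hy
    exact hy
  · push Not at h
    obtain ⟨x, hx⟩ := hirr.1
    refine ⟨1, ⟨0, isHomogeneous_one _ _⟩, ⟨x, hx, by simp⟩, ?_⟩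
    intro y _ b0 hb0 h2
    obtain ⟨i, j, ⟨y1, hy1, hy10⟩, ⟨y2, hy2, hy20⟩, hij⟩ := h2
    exact absurd (h b0 hb0 i j ⟨y1, hy1, hy10⟩ ⟨y2, hy2, hy20⟩) hij

theorem main : S_CHG := by
  intro k _ _ _ n ι _ U F hF hirr hno
  classical
  have := Fintype.ofFinite ι
  choose G hGd hGx hG using fun Q => one_Q U F hF hirr hno Q
  let D : Finset (Fin (n + 1) → ℤ) := Finset.univ.biUnion fun i : ι =>
    ((F i).support ×ˢ (F i).support).image fun p => fun j => (p.1 j : ℤ) - p.2 j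
  let J : Finset (Fin (n + 1)) :=
    Finset.univ.filter fun j => ∃ y ∈ Pool.Agent.W603.CX.Pts U F, y j ≠ 0
  obtain ⟨x1, hx1, hx1p⟩ := irred_prod hirr J (fun j => (X j : MvPolynomial (Fin (n + 1)) k)) (by
    intro j hj
    obtain ⟨y, hy, hy0⟩ := (Finset.mem_filter.1 hj).2
    exact ⟨y, hy, by simpa using hy0⟩)
  obtain ⟨x2, hx2, hx2p⟩ := irred_prod hirr D.powerset G (fun Q _ => hGx Q)
  refine ⟨(∏ j ∈ J, X j) * ∏ Q ∈ D.powerset, G Q, ?_, ?_, ?_⟩
  · choose d hd using hGd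
    exact ⟨_, (IsHomogeneous.prod J _ (fun _ => 1) (fun j _ => isHomogeneous_X _ _)).mul
      (IsHomogeneous.prod D.powerset _ d (fun Q _ => hd Q))⟩
  · by_contra hcon
    push Not at hcon
    rcases hirr.2 _ _ hcon with h3 | h3
    · exact hx1p (h3 x1 hx1)
    · exact hx2p (h3 x2 hx2)
  · intro x hx hxG
    rw [map_mul] at hxG
    have hJ := left_ne_zero_of_mul hxG
    have hQ := right_ne_zero_of_mul hxG
    rw [map_prod, Finset.prod_ne_zero_iff] at hJ hQ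
    refine ⟨?_, ?_⟩
    · intro j hj y hy
      by_contra hy0
      have h1 := hJ j (Finset.mem_filter.2 ⟨Finset.mem_univ _, y, hy, hy0⟩)
      rw [eval_X] at h1
      exact h1 hj
    · rintro ⟨Q, hQD, ⟨b0, hb0, i, j, hi, hj, hij⟩, hall⟩
      have hmem : ∀ q, q ∈ D.filter (· ∈ Q) ↔ q ∈ Q := by
        intro q
        rw [Finset.mem_filter]
        refine ⟨fun h => h.2, fun h => ⟨?_, h⟩⟩
        obtain ⟨i, α, hα, β, hβ, hq⟩ := hQD q h
        refine Finset.mem_biUnion.2 ⟨i, Finset.mem_univ _, Finset.mem_image.2 ⟨(α, β), ?_, ?_⟩⟩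
        · exact Finset.mem_product.2 ⟨hα, hβ⟩
        · funext j
          exact (hq j).symm
      have h1 := hQ (D.filter (· ∈ Q)) (Finset.mem_powerset.2 (Finset.filter_subset _ _))
      obtain ⟨b, hb, i', v, hne⟩ := hG (D.filter (· ∈ Q)) x h1 b0
        (fun q hq => hb0 q ((hmem q).1 hq)) ⟨i, j, ⟨x, hx, hi⟩, ⟨x, hx, hj⟩, hij⟩
      apply hne
      convert hall b (fun q hq => hb q ((hmem q).2 hq)) i' v

end Pool.Agent.W274.RG
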